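import Pool.Agent.TH188.WQ.Defs
import Pool.Agent.W924.WD.PBL

/-!
Blowup of the intersection of a component of the boundary and of the divisors `y t = 0`, relative
version: the logarithmic tangent vectors of the old model lift to the new one.
-/

set_option autoImplicit false
set_option linter.unusedVariables false
set_option linter.unusedSimpArgs false
set_option linter.unusedSectionVars false

universe u

open Polynomial

namespace Pool.Agent.TH971.WQ.PBL

open Pool.Agent.W558 Pool.Agent.TH188.WQ Pool.Agent.W924.WD.PBL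

section

variable {k N : Type u} [Field k] [Field N] [Algebra k N] {T I : Type} [DecidableEq I]
variable (M : LM (⊥ : Subalgebra k N) ⊤ T I) {y : T → N} (i : I)

/-- logarithmic tangent vectors can be lifted -/
lemma lift_pA (hyA : ∀ t, y t ∈ M.A t) (hy0 : ∀ t, y t ≠ 0)
    (hs : ∀ t, SNC (M.A t) (ox (y t) (M.x t))) (q : T × Bool)
    (B : Subalgebra k N) (hB : B = pA M y i q) (x' : Option I → N) (hx' : x' = pX M y i q)
    (hle : M.A q.1 ≤ B) (κ : Type u) [Field κ] [Algebra k κ] (φ : B →ₐ[k] κ)
    (v : LT (φ.comp (Subalgebra.inclusion hle)) (ox (y q.1) (M.x q.1))) :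
    ∃ v' : LT φ (ox (pY M y i q) x'),
      (∀ a (ha : a ∈ M.A q.1), v'.D.D ⟨a, hle ha⟩ = v.D.D ⟨a, ha⟩) ∧
      ∀ l, v'.e (some (some l)) + (if l = i then v'.e (some none) else 0) = v.e (some l) := by
  subst hB hx'
  have := M.sm q.1
  let X : Option I → N := ox (y q.1) (M.x q.1)
  let nu := nuo i q.2
  let de := deo i q.2
  have hXm : ∀ o, X o ∈ M.A q.1 := fun o => ox_mem M hyA q.1 o
  have hX0 : ∀ o, X o ≠ 0 := fun o => ox_ne M hy0 q.1 o
  let φ0 : M.A q.1 →ₐ[k] κ := φ.comp (Subalgebra.inclusion hle)
  have ht : Trans (M.A q.1) (⟨X nu, hXm nu⟩ : M.A q.1) ⟨X de, hXm de⟩ :=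
    (hs q.1).trans (nuo_ne_deo i q.2) _ _
  have hrel : φ0 ⟨X de, hXm de⟩ * φ ⟨vo M y i q, vo_mem M y i q⟩ = φ0 ⟨X nu, hXm nu⟩ := by
    have h1 : ∀ a : M.A q.1, φ0 a = φ ⟨a, le_pA M y i q a.2⟩ := fun a => rfl
    rw [h1, h1, ← map_mul]
    congr 1
    apply Subtype.ext
    change X de * (X nu / X de) = X nu
    have := hX0 de
    field_simp
  obtain ⟨E, hE1, hE2⟩ := TV.ext_adj (x := ⟨X nu, hXm nu⟩) (y := ⟨X de, hXm de⟩) (hX0 de) ht φ φ0
    (fun a => rfl) v.D (φ ⟨vo M y i q, vo_mem M y i q⟩ * (v.e nu - v.e de)) (by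
      rw [v.hx nu (hXm nu), v.hx de (hXm de), ← hrel]
      change φ0 ⟨X de, hXm de⟩ * (φ ⟨vo M y i q, vo_mem M y i q⟩ * (v.e nu - v.e de)) +
        φ ⟨vo M y i q, vo_mem M y i q⟩ * (φ0 ⟨X de, hXm de⟩ * v.e de) =
        φ0 ⟨X de, hXm de⟩ * φ ⟨vo M y i q, vo_mem M y i q⟩ * v.e nu
      ring)
  let P : N → κ → Prop := fun a e0 => ∀ ha : a ∈ pA M y i q, E.D ⟨a, ha⟩ = φ ⟨a, ha⟩ * e0
  have P1 : P 1 0 := by
    intro ha
    rw [mul_zero]
    exact E.D_one
  have PV : P (vo M y i q) (v.e nu - v.e de) := fun ha => hE2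
  have PX : ∀ o, P (X o) (v.e o) := by
    intro o ha
    exact (hE1 ⟨X o, hXm o⟩).trans (v.hx o (hXm o))
  let e' : Option (Option I) → κ := fun o => o.elim (v.e none - v.e de) fun o =>
    o.elim (v.e de) fun l => if l = i then v.e (some i) - v.e de else v.e (some l)
  have hP : ∀ o, P (ox (pY M y i q) (pX M y i q) o) (e' o) := by
    rintro (_ | _ | l)
    · obtain ⟨t, b⟩ := q
      cases b
      · have h1 : ox (pY M y i (t, false)) (pX M y i (t, false)) none = 1 := by
          simp [pY, bx, nuo, deo, ox]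
        have h2 : e' none = 0 := by simp [e', de, deo]
        rw [h1, h2]
        exact P1
      · have h1 : ox (pY M y i (t, true)) (pX M y i (t, true)) none = vo M y i (t, true) := by
          simp [pY, bx, nuo, deo, ox, vo]
        rw [h1]
        exact PV
    · exact PX de
    · by_cases hl : l = i
      · subst hl
        obtain ⟨t, b⟩ := q
        cases b
        · have h1 : ox (pY M y l (t, false)) (pX M y l (t, false)) (some (some l)) =
              vo M y l (t, false) := by
            simp [pX, bx, nuo, deo, ox, vo]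
          have h2 : e' (some (some l)) = v.e nu - v.e de := by
            simp [e', de, nu, deo, nuo]
          rw [h1, h2]
          exact PV
        · have h1 : ox (pY M y l (t, true)) (pX M y l (t, true)) (some (some l)) = 1 := by
            simp [pX, bx, nuo, deo, ox]
          have h2 : e' (some (some l)) = 0 := by simp [e', de, deo]
          rw [h1, h2]
          exact P1
      · have h1 : ox (pY M y i q) (pX M y i q) (some (some l)) = X (some l) :=
          pX_ne M y i q hl
        have h2 : e' (some (some l)) = v.e (some l) := by simp [e', hl]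
        rw [h1, h2]
        exact PX _
  refine ⟨⟨E, e', fun o ho => hP o ho⟩, fun a ha => hE1 ⟨a, ha⟩, fun l => ?_⟩
  change (if l = i then v.e (some i) - v.e de else v.e (some l)) + (if l = i then v.e de else 0) =
    v.e (some l)
  split_ifs with h
  · subst h
    ring
  · ring

end

theorem main : WQ_pbl.{u} := by
  intro p hp k N _ _ _ _ T I G _ _ _ M F Q y h c μ g Γ hPS hLq hFn i hci hgl
  have hp0 : p ≠ 0 := hp.out.ne_zero
  obtain ⟨M', hA, hx⟩ := exists_pbl M i hPS.yA hPS.y0 hPS.snc hgl
  have hle : ∀ q : T × Bool, M.A q.1 ≤ M'.A q := fun q => by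
    rw [hA]
    exact le_pA M y i q
  have hy0 := hPS.y0
  have hyA := hPS.yA
  have hyE := y_eq M i hy0
  have hxE := x_eq M i hy0
  have hYA : ∀ q, pY M y i q ∈ M'.A q := fun q => by
    rw [hA]
    exact bx_mem M i hyA q _
  have hXA : ∀ q o, pX M y i q o ∈ M'.A q := fun q o => by
    rw [hA]
    exact bx_mem M i hyA q _
  have hY0 : ∀ q, pY M y i q ≠ 0 := fun q => bx_ne M i hy0 q _
  have hX0 : ∀ q o, pX M y i q o ≠ 0 := fun q o => bx_ne M i hy0 q _
  -- factors
  have hc : ∀ (q : T × Bool) (l : I), ∃ w ∈ M'.A q, M.x q.1 l = w * pX M y i q (some l) := by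
    intro q l
    refine ⟨if l = i then pX M y i q none else 1, ?_, ?_⟩
    · split_ifs
      · exact hXA q _
      · exact (M'.A q).one_mem
    · rw [mul_comm]
      exact hxE q l
  have hoxQ : ∀ t o, ox (y t) (M.x t) o ∈ Q := fun t o => hPS.AQ t (ox_mem M hyA t o)
  have hoxQ' : ∀ t o, (ox (y t) (M.x t) o)⁻¹ ∈ Q := fun t o => by
    cases o with
    | none => exact hPS.yQ t
    | some l => exact hPS.xQ t l
  have hbQ : ∀ (q : T × Bool) (o : Option (Option I)),
      (bx (ox (y q.1) (M.x q.1)) (nuo i q.2) (deo i q.2) o)⁻¹ ∈ Q := by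
    intro q o
    cases o with
    | none => exact hoxQ' _ _
    | some l =>
      simp only [bx]
      split_ifs
      · rw [inv_div, div_eq_mul_inv]
        exact Q.mul_mem (hoxQ _ _) (hoxQ' _ _)
      · rw [inv_one]
        exact Q.one_mem
      · exact hoxQ' _ _
  -- the lifting
  have hlift := fun (q : T × Bool) (κ : Type u) [Field κ] [Algebra k κ] (φ : M'.A q →ₐ[k] κ)
    (v : LT (φ.comp (Subalgebra.inclusion (hle q))) (ox (y q.1) (M.x q.1))) =>
    lift_pA M i hyA hy0 hPS.snc q (M'.A q) (by rw [hA]) (M'.x q) (by rw [hx]) (hle q) κ φ v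
  refine ⟨M', pY M y i, fun o => o.elim (μ i + 1) μ,
    fun a o => o.elim (Γ a i) (Γ a),
    fun o l => o.elim (if l = i then 1 else 0) fun l' => if l' = l then 1 else 0,
    ?_, ?_, ?_, ?_, ?_, ?_, ?_, ?_, ?_, ?_⟩
  · refine ⟨hYA, hY0, fun q => hle q (hPS.hA q.1), ?_, ?_, fun q => hbQ q _, ?_, ?_, ?_⟩
    · -- AQ
      intro q
      rw [hA]
      refine adj_le (hPS.AQ q.1) ?_
      unfold vo
      rw [div_eq_mul_inv]
      exact Q.mul_mem (hoxQ _ _) (hoxQ' _ _)
    · intro q o
      rw [hx]
      exact hbQ q _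
    · -- the equation
      intro q
      rw [hPS.eq q.1, hx, Fintype.prod_option, Fintype.prod_option]
      rw [prod_pX M i hy0 q, prod_pX M i hy0 q, hyE q]
      simp only [Option.elim]
      have hn := hX0 q none
      rw [mul_add, mul_one, zpow_add₀ hn, zpow_sub₀ hn, mul_pow, zpow_natCast]
      have hn' : pX M y i q none ^ p ≠ 0 := pow_ne_zero _ hn
      field_simp
    · intro q
      rw [hA, hx]
      have := M.sm q.1
      have h1 := (hPS.snc q.1).blow (ox_mem M hyA q.1) (ox_ne M hy0 q.1) (nuo_ne_deo i q.2)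
      let σ : Option (Option I) → Option (Option I) := fun o => o.elim (some none) (Option.map some)
      have hσ : Function.Injective σ := by
        rintro (_ | _ | a) (_ | _ | b) hab <;> simp_all [σ]
      have h2 := snc_comp h1 hσ
      refine (congrArg (SNC (pA M y i q)) ?_).mp h2
      funext o
      rcases o with _ | _ | a <;> rfl
    · intro q κ _ _ φ
      obtain ⟨v, hv⟩ := hPS.ln q.1 κ (φ.comp (Subalgebra.inclusion (hle q)))
      obtain ⟨v', hv1, hv2⟩ := hlift q κ φ v
      refine ⟨v', ?_⟩
      have hpκ : (p : κ) = 0 := by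
        have h1 : algebraMap k κ (p : k) = (p : κ) := map_natCast _ p
        rw [← h1, CharP.cast_eq_zero, map_zero]
      have hsum : ∑ o : Option (Option I), (((fun o : Option (Option I) => o.elim 0 fun o =>
          o.elim (c i - p) c) o : ℤ) : κ) * v'.e o =
          ∑ o : Option I, (((fun o : Option I => o.elim 0 c) o : ℤ) : κ) * v.e o := by
        rw [Fintype.sum_option, Fintype.sum_option, Fintype.sum_option]
        simp only [Option.elim]
        have h1 : ∀ l : I, (c l : κ) * v.e (some l) =
            (c l : κ) * v'.e (some (some l)) +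
              (if l = i then (c i : κ) * v'.e (some none) else 0) := by
          intro l
          rw [← hv2 l]
          split_ifs with h
          · subst h
            ring
          · ring
        rw [Finset.sum_congr rfl fun l _ => h1 l, Finset.sum_add_distrib,
          Finset.sum_ite_eq' Finset.univ i, if_pos (Finset.mem_univ i)]
        push_cast
        rw [hpκ]
        ring
      have hom : om v' (fun o => o.elim 0 fun o => o.elim (c i - p) c) (hle q (hPS.hA q.1)) =
          om v (fun o => o.elim 0 c) (hPS.hA q.1) := by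
        unfold om
        rw [← hsum]
        congr 1
        exact hv1 (h q.1) (hPS.hA q.1)
      rw [hom]
      exact hv
  · intro q s hs
    obtain ⟨α, hα, β, hβ, h1, h2, h3⟩ := hLq q.1 s hs
    exact ⟨α, hle q hα, β, hle q hβ, h1, h2, h3⟩
  · intro a q
    obtain ⟨w, hw0, hw, hw', hga⟩ := hFn a q.1
    refine ⟨w, hw0, hle q hw, hle q hw', ?_⟩
    rw [hga, prod_pX M i hy0 q, hx, Fintype.prod_option]
    rfl
  · -- SepY
    rintro ⟨t, b⟩
    rw [hx]
    cases b
    · refine ⟨0, (M'.A _).zero_mem, 1, (M'.A _).one_mem, ?_⟩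
      simp [pY, bx, nuo, deo]
    · refine ⟨1, (M'.A _).one_mem, 0, (M'.A _).zero_mem, ?_⟩
      simp [pX, bx, nuo, deo]
  · intro l l' hh q
    rw [hx]
    obtain ⟨α, hα, β, hβ, h1⟩ := hh q.1
    obtain ⟨w, hw1, hw2⟩ := hc q l
    obtain ⟨w', hw1', hw2'⟩ := hc q l'
    refine ⟨α * w, (M'.A q).mul_mem (hle q hα) hw1, β * w', (M'.A q).mul_mem (hle q hβ) hw1', ?_⟩
    rw [← h1, hw2, hw2']
    ring
  · intro l hh q
    rw [hx]
    obtain ⟨α, hα, β, hβ, h1⟩ := hh q.1
    obtain ⟨w, hw1, hw2⟩ := hc q l
    refine ⟨α * w, (M'.A q).mul_mem (hle q hα) hw1, β * pX M y i q none,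
      (M'.A q).mul_mem (hle q hβ) (hXA q _), ?_⟩
    rw [← h1, hw2, hyE q]
    ring
  · intro l hh q
    rw [hx]
    obtain ⟨α, hα, β, hβ, h1⟩ := hh q.1
    obtain ⟨w, hw1, hw2⟩ := hc q l
    refine ⟨α * pX M y i q (some i), (M'.A q).mul_mem (hle q hα) (hXA q _), β * w,
      (M'.A q).mul_mem (hle q hβ) hw1, ?_⟩
    rw [← h1, hw2, xi_eq M i hy0 q]
    ring
  · intro l hh q
    rw [hx]
    obtain ⟨α, hα, β, hβ, h1⟩ := hh q.1
    obtain ⟨w, hw1, hw2⟩ := hc q l
    refine ⟨β * pY M y i q, (M'.A q).mul_mem (hle q hβ) (hYA q), α * w,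
      (M'.A q).mul_mem (hle q hα) hw1, ?_⟩
    rw [← h1, hw2, hyE q]
    ring
  · -- lifting
    refine ⟨hle, ?_, ?_, ?_⟩
    · intro q l
      rw [hx, Fintype.prod_option]
      simp only [Option.elim]
      have h1 : ∀ l' : I, pX M y i q (some l') ^ (if l' = l then (1 : ℤ) else 0) =
          if l' = l then pX M y i q (some l) else 1 := by
        intro l'
        split_ifs with h
        · rw [h, zpow_one]
        · rw [zpow_zero]
      rw [Finset.prod_congr rfl fun l' _ => h1 l', Finset.prod_ite_eq' Finset.univ l,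
        if_pos (Finset.mem_univ l), hxE q l, mul_comm]
      congr 1
      split_ifs
      · rw [zpow_one]
      · rw [zpow_zero]
    · rintro (_ | l') l
      · simp only [Option.elim]
        split_ifs <;> norm_num
      · simp only [Option.elim]
        split_ifs <;> norm_num
    · intro q κ _ _ φ v
      obtain ⟨v', hv1, hv2⟩ := hlift q κ φ v
      refine ⟨v', hv1, fun l => ?_⟩
      rw [Fintype.sum_option]
      simp only [Option.elim]
      have h1 : ∀ l' : I, (((if l' = l then 1 else 0 : ℤ) : ℤ) : κ) * v'.e (some (some l')) =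
          if l' = l then v'.e (some (some l)) else 0 := by
        intro l'
        split_ifs with h
        · rw [h]
          push_cast
          ring
        · push_cast
          ring
      rw [Finset.sum_congr rfl fun l' _ => h1 l', Finset.sum_ite_eq' Finset.univ l,
        if_pos (Finset.mem_univ l), ← hv2 l, add_comm]
      congr 1
      split_ifs
      · push_cast
        ring
      · push_cast
        ring
  · -- the exponents
    rintro (_ | l')
    · simp only [Option.elim]
      have h1 : ∀ l : I, (if l = i then (1 : ℤ) else 0) * (c l + p * μ l) =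
          if l = i then (c i + p * μ i) else 0 := by
        intro l
        split_ifs with h
        · rw [h, one_mul]
        · rw [zero_mul]
      rw [Finset.sum_congr rfl fun l _ => h1 l, Finset.sum_ite_eq' Finset.univ i,
        if_pos (Finset.mem_univ i)]
      ring
    · simp only [Option.elim]
      have h1 : ∀ l : I, (if l' = l then (1 : ℤ) else 0) * (c l + p * μ l) =
          if l' = l then (c l' + p * μ l') else 0 := by
        intro l
        split_ifs with h
        · rw [h, one_mul]
        · rw [zero_mul]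
      rw [Finset.sum_congr rfl fun l _ => h1 l, Finset.sum_ite_eq Finset.univ l',
        if_pos (Finset.mem_univ l')]

end Pool.Agent.TH971.WQ.PBL
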